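import Mathlib
import Pool.Agent.H15.KneB

set_option autoImplicit false

namespace Pool.Agent.Results.MP_c3b97e_co.Value

open Pool.Agent.H15.Kne

/-- The sets `{0}`, `A`, `A + A` are pairwise disjoint. -/
def SumFree {G : Type} [AddCommGroup G] (A : Set G) : Prop :=
  0 ∉ A ∧ ∀ a ∈ A, ∀ b ∈ A, a + b ≠ 0 ∧ a + b ∉ A

/-- The largest size of a `[0,2]`-sum-free set. -/
noncomputable def mu (G : Type) [AddCommGroup G] : ℕ :=
  sSup {k | ∃ A : Set G, SumFree A ∧ A.ncard = k}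

/-- The maximal size of a `[0,2]`-sum-free set in a cyclic group. -/
theorem result (n : ℕ) (hn : 0 < n) :
    (∀ p, IsLeast {p | p.Prime ∧ p ∣ n ∧ p % 4 = 3} p → (mu (ZMod n) : ℚ) = (1 + 1 / p) * n / 4) ∧
    ((∀ p, p.Prime → p ∣ n → p % 4 ≠ 3) → mu (ZMod n) = n / 4) := by
  have := NeZero.mk hn.ne'
  have h := mu4 (ZMod n) (mu (ZMod n)) rfl
  rw [Nat.card_zmod] at h
  refine ⟨h.1, fun k => ?_⟩
  obtain ⟨A, a, b⟩ := low4 (.id (ZMod n)) Function.surjective_id (k := n / 4) (by omega)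
  rw [Nat.card_zmod, mul_comm] at b
  have := Nat.eq_of_mul_eq_mul_right hn b
  exact (h.2 k).2 A a (by omega)

end Pool.Agent.Results.MP_c3b97e_co.Value
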